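import Mathlib
import Pool.Agent.TH847.LD.Main

/-! # MP_0ea415_nt: Littlewood's conjecture for dilations by primes and other good sequences

Let `μ_1, μ_2, …` be finitely supported (sub)probability measures on the integers that are good for
irrational rotations: the Fourier transforms `∑ μ_N(m) e^(2 π i m t)` tend to `0` for every
irrational `t`; nothing is assumed at rational `t`.  For all real `α, β` and every `ε > 0` the
`μ_N`-mass of the integers `m` for which `(α, m β)` violates `liminf q ⟨qα⟩ ⟨q m β⟩ < ε` tends to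
`0`.  If `1, α, β` are linearly independent over `ℚ`, then for every real `β'` the `μ_N`-mass of
the `m` for which `liminf q ⟨qα⟩ ⟨q (m β + β') - γ⟩ < ε` fails for some real shift `γ` tends to `0`.

In particular, for all real `α, β` the inequality `liminf q ⟨qα⟩ ⟨q p β⟩ < ε` holds for all primes
`p` outside a set of relative density zero. -/

open Filter Topology Finset

namespace Pool.Agent.Results.MP_0ea415_nt.GoodDilations

/-- Infinitely many positive integers `q` satisfy `q ⟨qα⟩ ⟨qβ - γ⟩ < ε`, where `⟨x⟩` is the distance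
from `x` to the nearest integer. -/
def IsInf (α β γ ε : ℝ) : Prop :=
  ∃ᶠ q : ℕ in atTop, (q : ℝ) * |q * α - round (q * α)| * |(q * β - γ) - round (q * β - γ)| < ε

/-- `liminf q ⟨qα⟩ ⟨q m β⟩ < ε`, up to equality: infinitely many `q` satisfy the inequality. -/
def GoodZero (α β ε : ℝ) (m : ℤ) : Prop := IsInf α (m * β) 0 ε

/-- The same for `m β + β'` and all real shifts `γ`. -/
def GoodAll (α β β' ε : ℝ) (m : ℤ) : Prop := ∀ γ : ℝ, IsInf α (m * β + β') γ ε

open Classical in
theorem result :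
    (∀ μ : ℕ → ℤ →₀ ℝ, (∀ N m, 0 ≤ μ N m) → (∀ N, ∑ m ∈ (μ N).support, μ N m ≤ 1) →
      (∀ t : ℝ, Irrational t → Tendsto (fun N => ∑ m ∈ (μ N).support,
        (μ N m : ℂ) * Complex.exp (2 * Real.pi * ((m * t : ℝ) : ℂ) * Complex.I)) atTop (𝓝 0)) →
      ∀ α β ε : ℝ, 0 < ε →
        Tendsto (fun N => ∑ m ∈ (μ N).support with ¬ GoodZero α β ε m, μ N m) atTop (𝓝 0) ∧
        (LinearIndependent ℚ ![1, α, β] → ∀ β' : ℝ,
          Tendsto (fun N => ∑ m ∈ (μ N).support with ¬ GoodAll α β β' ε m, μ N m)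
            atTop (𝓝 0))) ∧
    (∀ α β ε : ℝ, 0 < ε →
      Tendsto (fun N : ℕ => (#{p ∈ Icc 1 N | Nat.Prime p ∧ ¬ GoodZero α β ε (p : ℤ)} : ℝ)
        / #{p ∈ Icc 1 N | Nat.Prime p}) atTop (𝓝 0) ∧
      (LinearIndependent ℚ ![1, α, β] → ∀ β' : ℝ,
        Tendsto (fun N : ℕ => (#{p ∈ Icc 1 N | Nat.Prime p ∧ ¬ GoodAll α β β' ε (p : ℤ)} : ℝ)
          / #{p ∈ Icc 1 N | Nat.Prime p}) atTop (𝓝 0))) := by
  refine ⟨fun μ h0 h1 hμ α β ε hε => ⟨?_, fun hli β' => ?_⟩, fun α β ε hε => ⟨?_, fun hli β' => ?_⟩⟩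
  · exact Pool.Agent.TH847.LD.zero_shift μ h0 h1 hμ hε
  · exact Pool.Agent.TH847.LD.all_shifts μ h0 h1 hμ hε (Pool.Agent.TH847.LD.not_rel hli)
  · have h := Pool.Agent.TH847.LD.zero_shift Pool.Agent.TH847.LD.μP
      Pool.Agent.TH847.LD.μP_nonneg Pool.Agent.TH847.LD.μP_sum_le
      Pool.Agent.TH847.LD.primes_good (α := α) (β := β) hε
    simp only [Pool.Agent.TH847.LD.prime_ratio] at h
    exact_mod_cast h
  · have h := Pool.Agent.TH847.LD.all_shifts Pool.Agent.TH847.LD.μP
      Pool.Agent.TH847.LD.μP_nonneg Pool.Agent.TH847.LD.μP_sum_le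
      Pool.Agent.TH847.LD.primes_good (α := α) (β := β) (β' := β') hε
      (Pool.Agent.TH847.LD.not_rel hli)
    simp only [Pool.Agent.TH847.LD.prime_ratio] at h
    exact_mod_cast h

end Pool.Agent.Results.MP_0ea415_nt.GoodDilations
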