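import Mathlib
import Pool.Agent.W241.LacD

/-! # MP_0ea415_nt: the limit values of a counterexample to Littlewood's conjecture have
differences at all scales

Call a set `S` of real numbers lacunary if for all `R > 1` and `ε > 0` there is `η < ε` such that no
difference of two elements of `S` has absolute value in `[η, R η]`.  Single points are lacunary, and
so are the sets `{c + exp (- exp n)}`; countable sets are countable unions of lacunary sets, and
there are uncountable (even perfect) lacunary sets.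

Let `α, β` be real numbers and let `T > 2 / 9` (or, more generally, let `T` be such that every
product of three real linear forms in three variables of determinant `±1` takes a value of absolute
value `< T` at a nonzero integer point).  If the set of limit points `t < T` of the sequence
`q ⟨qα⟩ ⟨qβ⟩`, `q → ∞`, is contained in a countable union of lacunary sets, then
`liminf q ⟨qα⟩ ⟨qβ⟩ = 0`. -/

open Filter Topology

namespace Pool.Agent.Results.MP_0ea415_nt.LacunaryLimitValues

theorem result (α β T : ℝ)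
    (hT : 2 / 9 < T ∨ ∀ h : Matrix (Fin 3) (Fin 3) ℝ, |h.det| = 1 →
      ∃ x : Fin 3 → ℤ, x ≠ 0 ∧ |∏ i : Fin 3, ∑ j : Fin 3, h i j * (x j : ℝ)| < T)
    (C : ℕ → Set ℝ)
    (hC : ∀ k : ℕ, ∀ R : ℝ, 1 < R → ∀ ε : ℝ, 0 < ε → ∃ η : ℝ, 0 < η ∧ η < ε ∧
      ∀ s ∈ C k, ∀ t ∈ C k, |s - t| < η ∨ R * η < |s - t|)
    (hcov : {t : ℝ | t < T ∧ MapClusterPt t atTop (fun q : ℕ =>
      (q : ℝ) * |(q : ℝ) * α - (round ((q : ℝ) * α) : ℝ)|
        * |(q : ℝ) * β - (round ((q : ℝ) * β) : ℝ)|)} ⊆ ⋃ k, C k) :
    ∀ ε : ℝ, 0 < ε → ∀ N : ℕ, ∃ q : ℕ, N ≤ q ∧ 0 < q ∧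
      (q : ℝ) * |(q : ℝ) * α - (round ((q : ℝ) * α) : ℝ)|
        * |(q : ℝ) * β - (round ((q : ℝ) * β) : ℝ)| < ε :=
  Pool.Agent.W241.Lac.littlewood_lacunary α β T hT C hC hcov

end Pool.Agent.Results.MP_0ea415_nt.LacunaryLimitValues
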