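import Mathlib
import Pool.Agent.TH869.LPS.Res

set_option autoImplicit false

/-! # MP_0ea415_nt: power savings for the exceptional set in Littlewood's conjecture along
polynomial sequences

For `0 < ε ≤ 1/2` and a real number `α` let `V_ε(α)` be the set of all real `β` for which (for some
shift `γ`) only finitely many `q` satisfy `q ‖qα‖ ‖qβ - γ‖ < ε`; if a pair `(α, β)` violates the
Littlewood conjecture, then `β` lies in `V_ε(α)` for some `ε > 0`. For every `d` there are constants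
`c, C > 0` such that the following holds, uniformly in `ε, α, β` and all other data.

1. Let `P` be a real polynomial of degree at most `d` and `1 ≤ B ≤ N` such that for no `b ≤ B` all
   nonconstant coefficients of `b P` are in `ℤ + ℤα`. Then at most
   `(C / ε) N B^(-c ε / log (1/ε))` of the numbers `P(0), …, P(N-1)` are in `V_ε(α)`.
2. For every integer polynomial `f` with `1 ≤ deg f ≤ d` and all real `α, β` the inequality
   `q ‖qα‖ ‖q f(l) β‖ < ε` has infinitely many solutions `q` for all but at most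
   `(C / ε) N^(1 - c ε / log (1/ε))` of the integers `0 ≤ l < N`.
3. At most `(C / ε) M^(1 - c ε / log (1/ε))` of the `M` numbers `β + l / M` are in `V_ε(α)`.
-/

open Filter Polynomial

namespace Pool.Agent.Results.MP_0ea415_nt.ProgressionsPowerSaving

/-- `q ‖qα‖ ‖qβ - γ‖ < ε` for infinitely many `q` -/
def Good (ε α β γ : ℝ) : Prop :=
  ∃ᶠ q : ℕ in atTop, (q : ℝ) * |q * α - round (q * α)| * |(q * β - γ) - round (q * β - γ)| < ε

open Classical in
theorem result (d : ℕ) : ∃ c C : ℝ, 0 < c ∧ 0 < C ∧ ∀ ε : ℝ, 0 < ε → ε ≤ 1 / 2 → ∀ α : ℝ,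
    -- polynomial sequences
    (∀ P : ℝ[X], P.natDegree ≤ d → ∀ N B : ℕ, 1 ≤ B → B ≤ N →
      (∀ b : ℕ, 1 ≤ b → b ≤ B → ∃ j, 1 ≤ j ∧ ∀ u v : ℤ, (b : ℝ) * P.coeff j ≠ u + v * α) →
      (((Finset.range N).filter
        (fun l : ℕ => ¬ ∀ γ : ℝ, Good ε α (P.eval (l : ℝ)) γ)).card : ℝ) ≤
        C / ε * N * (B : ℝ) ^ (-(c * ε / Real.log (1 / ε)))) ∧
    -- multiples `f(l) β`
    (∀ (β : ℝ) (f : ℤ[X]), 1 ≤ f.natDegree → f.natDegree ≤ d → ∀ N : ℕ, 1 ≤ N →
      (((Finset.range N).filter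
        (fun l : ℕ => ¬ Good ε α (((f.eval (l : ℤ) : ℤ) : ℝ) * β) 0)).card : ℝ) ≤
        C / ε * (N : ℝ) ^ (1 - c * ε / Real.log (1 / ε))) ∧
    -- equally spaced points
    (∀ (β : ℝ) (M : ℕ), 1 ≤ M →
      (((Finset.range M).filter
        (fun l : ℕ => ¬ ∀ γ : ℝ, Good ε α (β + l / M) γ)).card : ℝ) ≤
        C / ε * (M : ℝ) ^ (1 - c * ε / Real.log (1 / ε))) := by
  obtain ⟨c₁, C₁, hc₁, hc₁', hC₁, h₁⟩ := Pool.Agent.TH869.LPS.poly d
  obtain ⟨c₂, C₂, hc₂, hc₂', hC₂, h₂⟩ := Pool.Agent.TH869.LPS.dil d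
  obtain ⟨c₃, C₃, hc₃, hc₃', hC₃, h₃⟩ := Pool.Agent.TH869.LPS.grid
  refine ⟨min c₁ (min c₂ c₃), C₁ + C₂ + C₃, by positivity, by positivity, ?_⟩
  intro ε hε hε2 α
  have hlog := Pool.Agent.TH869.LPS.log_pos_of ε hε hε2
  have hm1 : min c₁ (min c₂ c₃) ≤ c₁ := min_le_left _ _
  have hm2 : min c₁ (min c₂ c₃) ≤ c₂ := (min_le_right _ _).trans (min_le_left _ _)
  have hm3 : min c₁ (min c₂ c₃) ≤ c₃ := (min_le_right _ _).trans (min_le_right _ _)
  set c := min c₁ (min c₂ c₃)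
  have hdiv : ∀ c' : ℝ, c ≤ c' → c * ε / Real.log (1/ε) ≤ c' * ε / Real.log (1/ε) := by
    intro c' hc'
    have : 0 < Real.log (1/ε) := by linarith
    gcongr
  refine ⟨?_, ?_, ?_⟩
  · intro P hP N B hB hBN hj
    refine (h₁ ε hε hε2 α P hP N B hB hBN hj).trans ?_
    have hBr : (1:ℝ) ≤ B := by exact_mod_cast hB
    have := hdiv c₁ hm1
    gcongr
    linarith
  · intro β f hf1 hfd N hN
    refine (h₂ ε hε hε2 α β f hf1 hfd N hN).trans ?_
    have hNr : (1:ℝ) ≤ N := by exact_mod_cast hN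
    have := hdiv c₂ hm2
    gcongr
    linarith
  · intro β M hM
    refine (h₃ ε hε hε2 α β M hM).trans ?_
    have hMr : (1:ℝ) ≤ M := by exact_mod_cast hM
    have := hdiv c₃ hm3
    gcongr
    linarith

end Pool.Agent.Results.MP_0ea415_nt.ProgressionsPowerSaving
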