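import Mathlib
import Pool.Agent.TH723.BR.Main

set_option autoImplicit false

/-!
The exceptional set in Littlewood's conjecture is a set of uniqueness for trigonometric series.
-/

namespace Pool.Agent.Results.MP_0ea415_nt.SetOfUniqueness

open Filter Topology
open Pool.Agent.TH723.BR

/-- Inhomogeneous Dirichlet: for irrational `α` and all `δ` there are arbitrarily large `q` with
`q ⟨q α - δ⟩ ≤ 5`. -/
lemma minkowski {α : ℝ} (hα : Irrational α) (δ : ℝ) (N : ℕ) :
    ∃ q : ℕ, N ≤ q ∧ 0 < q ∧ (q : ℝ) * nd (q * α - δ) ≤ 5 := by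
  -- a good approximation with large denominator
  obtain ⟨r, hr, hrN⟩ : ∃ r : ℚ, |α - r| ≤ 1 / ((r.den : ℝ) * r.den) ∧ N < r.den := by
    -- distance of k α to the integers for 1 ≤ k ≤ N
    have hpos : ∀ k ∈ Finset.Icc 1 (N + 1), 0 < nd (k * α) := by
      intro k hk
      rw [Finset.mem_Icc] at hk
      unfold nd
      rw [abs_pos, sub_ne_zero]
      intro hc
      have h1 : Irrational ((k : ℝ) * α) := hα.natCast_mul (by omega)
      exact h1 ⟨(round ((k : ℝ) * α) : ℚ), by rw [hc]; simp⟩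
    obtain ⟨k0, hk0, hmin⟩ := Finset.exists_min_image (Finset.Icc 1 (N + 1)) (fun k : ℕ => nd (k * α))
      ⟨1, by simp⟩
    obtain ⟨n, hn⟩ := exists_nat_one_div_lt (hpos k0 hk0)
    obtain ⟨r, hr1, hr2⟩ := Real.exists_rat_abs_sub_le_and_den_le α (Nat.succ_pos n)
    have hden : (0 : ℝ) < r.den := by exact_mod_cast r.pos
    refine ⟨r, ?_, ?_⟩
    · refine hr1.trans ?_
      apply one_div_le_one_div_of_le (by positivity)
      apply mul_le_mul_of_nonneg_right _ hden.le
      have : (r.den : ℝ) ≤ ((n + 1 : ℕ) : ℝ) := by exact_mod_cast hr2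
      linarith
    · by_contra hcon
      push Not at hcon
      have h1 := hmin r.den (Finset.mem_Icc.2 ⟨r.pos, by omega⟩)
      have h2 : nd (r.den * α) ≤ 1 / ((n : ℝ) + 1) := by
        refine (nd_le _ r.num).trans ?_
        have h3 : (r.den : ℝ) * α - r.num = r.den * (α - r) := by
          have h4 : (r : ℝ) * r.den = r.num := by
            have := Rat.mul_den_eq_num r
            exact_mod_cast this
          rw [mul_sub, mul_comm (r.den : ℝ) (r : ℝ), h4]
        rw [h3, abs_mul, abs_of_pos hden]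
        calc (r.den : ℝ) * |α - r| ≤ r.den * (1 / ((((n + 1 : ℕ) : ℝ) + 1) * r.den)) := by gcongr
          _ = 1 / (((n + 1 : ℕ) : ℝ) + 1) := by field_simp
          _ ≤ 1 / ((n : ℝ) + 1) := by
            apply one_div_le_one_div_of_le (by positivity)
            push_cast
            linarith
      linarith
  set b : ℕ := r.den with hb
  set a : ℤ := r.num with ha
  have hb0 : 0 < b := r.pos
  have hbr : (0 : ℝ) < b := by exact_mod_cast hb0
  -- solve n a ≡ m mod b
  set m : ℤ := round ((b : ℝ) * δ) with hm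
  have hcop : IsCoprime a (b : ℤ) := by
    rw [Int.isCoprime_iff_gcd_eq_one]
    have := r.reduced
    rw [Nat.coprime_iff_gcd_eq_one] at this
    rw [Int.gcd_def, Int.natAbs_natCast]
    exact this
  obtain ⟨s, t, hst⟩ := hcop
  set n0 : ℤ := (s * m) % b with hn0
  have hn0a : 0 ≤ n0 := Int.emod_nonneg _ (by omega)
  have hn0b : n0 < b := Int.emod_lt_of_pos _ (by omega)
  obtain ⟨w, hw⟩ : ∃ w : ℤ, (n0 + b) * a - m = b * w := by
    have h1 : s * m = b * (s * m / b) + n0 := (Int.mul_ediv_add_emod (s * m) b).symm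
    refine ⟨a - t * m - (s * m / b) * a, ?_⟩
    have h2 : n0 = s * m - b * (s * m / b) := by linarith
    have h3 : s * m * a = m - t * b * m := by
      have : (s * a + t * b) * m = m := by rw [hst, one_mul]
      linarith
    rw [h2]
    linear_combination h3
  obtain ⟨q, hq⟩ : ∃ q : ℕ, (q : ℤ) = n0 + b := ⟨(n0 + b).toNat, Int.toNat_of_nonneg (by omega)⟩
  have hqb : b ≤ q := by omega
  have hq2 : q < 2 * b := by omega
  refine ⟨q, by omega, by omega, ?_⟩
  have hqr : (q : ℝ) ≤ 2 * b := by exact_mod_cast hq2.le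
  have hqα : nd (q * α - δ) ≤ 5 / (2 * b) := by
    refine (nd_le _ w).trans ?_
    have h1 : ((q : ℝ) * a - m) = b * w := by
      have : ((q : ℤ) * a - m) = b * w := by rw [hq]; exact hw
      exact_mod_cast this
    have h4 : (r : ℝ) * b = a := by
      have := Rat.mul_den_eq_num r
      exact_mod_cast this
    have h5 : (q : ℝ) * α - δ - w = q * (α - r) + (m - b * δ) / b := by
      field_simp
      have h6 : (b : ℝ) * w = q * (r * b) - m := by rw [h4, h1]
      linear_combination -h6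
    rw [h5]
    refine (abs_add_le _ _).trans ?_
    have h7 : |(q : ℝ) * (α - r)| ≤ 2 / b := by
      rw [abs_mul, Nat.abs_cast]
      calc (q : ℝ) * |α - r| ≤ (2 * b) * (1 / ((b : ℝ) * b)) := by gcongr
        _ = 2 / b := by field_simp
    have h8 : |((m : ℝ) - b * δ) / b| ≤ (1 / 2) / b := by
      rw [abs_div, abs_of_pos hbr]
      apply div_le_div_of_nonneg_right _ hbr.le
      rw [abs_sub_comm]
      exact abs_sub_round _
    calc _ ≤ 2 / (b : ℝ) + (1 / 2) / b := add_le_add h7 h8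
      _ = 5 / (2 * b) := by field_simp; norm_num
  have hnd : 0 ≤ nd (q * α - δ) := abs_nonneg _
  calc (q : ℝ) * nd (q * α - δ) ≤ (2 * b) * (5 / (2 * b)) := by gcongr
    _ = 5 := by field_simp

lemma large {α δ : ℝ} (h : δ = 0 ∨ Irrational α) (N : ℕ) :
    ∃ q : ℕ, N ≤ q ∧ 0 < q ∧ (q : ℝ) * nd (q * α - δ) ≤ 5 := by
  by_cases hα : Irrational α
  · exact minkowski hα δ N
  · have hδ : δ = 0 := h.resolve_right hα
    subst hδ
    rw [Irrational, not_not] at hα
    obtain ⟨r, rfl⟩ := hα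
    have hden : (0 : ℝ) < r.den := by exact_mod_cast r.pos
    refine ⟨(N + 1) * r.den, ?_, Nat.mul_pos (Nat.succ_pos N) r.pos, ?_⟩
    · have := r.pos
      nlinarith
    · have h4 : (r : ℝ) * r.den = r.num := by
        have := Rat.mul_den_eq_num r
        exact_mod_cast this
      have h5 : nd ((((N + 1) * r.den : ℕ) : ℝ) * r - 0) ≤ 0 := by
        refine (nd_le _ ((N + 1) * r.num)).trans ?_
        have h6 : (((N + 1) * r.den : ℕ) : ℝ) * r - 0 - (((N + 1) * r.num : ℤ) : ℝ) = 0 := by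
          push_cast
          linear_combination ((N : ℝ) + 1) * h4
        rw [h6, abs_zero]
      have h7 : nd ((((N + 1) * r.den : ℕ) : ℝ) * r - 0) = 0 := le_antisymm h5 (abs_nonneg _)
      rw [h7, mul_zero]
      norm_num

/-- **The exceptional set in Littlewood's conjecture is a set of uniqueness.** Let `A` be a countable
set of pairs `(α, δ)` with `α` irrational or `δ = 0`. If a trigonometric series converges to zero at
every `β` such that `liminf q ⟨q α - δ⟩ ⟨q β - γ⟩ = 0` for all `(α, δ) ∈ A` and all real `γ`, then all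
its coefficients are zero. -/
theorem result (A : Set (ℝ × ℝ)) (hA : A.Countable) (hirr : ∀ p ∈ A, p.2 = 0 ∨ Irrational p.1)
    (c : ℤ → ℂ)
    (hc : ∀ β : ℝ,
      (∀ p ∈ A, ∀ γ ε : ℝ, 0 < ε → ∀ N : ℕ, ∃ q : ℕ, N ≤ q ∧ 0 < q ∧
        (q : ℝ) * |(q : ℝ) * p.1 - p.2 - round ((q : ℝ) * p.1 - p.2)| *
          |(q : ℝ) * β - γ - round ((q : ℝ) * β - γ)| < ε) →
      Tendsto (fun N : ℕ => ∑ n ∈ Finset.Icc (-(N : ℤ)) (N : ℤ),
        c n * Complex.exp (2 * (Real.pi : ℂ) * Complex.I * (n : ℂ) * (β : ℂ))) atTop (𝓝 0)) :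
    ∀ n, c n = 0 := by
  have : Countable A := hA.to_subtype
  have hex : ∀ p : A, ∃ q : ℕ → ℕ, Tendsto q atTop atTop ∧
      ∀ k, 0 < q k ∧ (q k : ℝ) * nd (q k * p.1.1 - p.1.2) ≤ 5 := by
    intro p
    choose q hq1 hq2 hq3 using fun k : ℕ => large (hirr p.1 p.2) k
    exact ⟨q, tendsto_atTop_mono hq1 tendsto_id, fun k => ⟨hq2 k, hq3 k⟩⟩
  choose q hq hq5 using hex
  apply uniqueness q hq c
  intro β hβ
  refine hc β fun p hp γ ε hε N => ?_
  obtain ⟨K, hK⟩ := eventually_atTop.1 ((hq ⟨p, hp⟩).eventually_ge_atTop N)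
  obtain ⟨k, hk, h1⟩ := hβ ⟨p, hp⟩ γ (ε / 6) (by positivity) K
  refine ⟨q ⟨p, hp⟩ k, hK k hk, (hq5 ⟨p, hp⟩ k).1, ?_⟩
  have h2 := (hq5 ⟨p, hp⟩ k).2
  have h3 : 0 ≤ nd (q ⟨p, hp⟩ k * β - γ) := abs_nonneg _
  calc _ ≤ 5 * nd (q ⟨p, hp⟩ k * β - γ) := mul_le_mul_of_nonneg_right h2 h3
    _ < ε := by linarith

end Pool.Agent.Results.MP_0ea415_nt.SetOfUniqueness
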